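import Pool.Agent.Run7.h109.NH.Ring

set_option autoImplicit false

namespace Run7.h109.NH

open IsLocalRing

noncomputable def rx : R := ⟨(MvPowerSeries.X 0, 0), by rw [mem_range]; simp⟩
noncomputable def ry : R := ⟨(MvPowerSeries.X 1, 0), by rw [mem_range]; simp⟩
noncomputable def rz : R := ⟨(0, PowerSeries.X), by rw [mem_range]; simp⟩

lemma ry_rz : ry * rz = 0 := by
  apply Subtype.ext
  refine Prod.ext ?_ ?_
  · show (MvPowerSeries.X 1 : A) * 0 = 0; simp
  · show (0 : B) * PowerSeries.X = 0; simp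

lemma mem_max (r : R) : r ∈ maximalIdeal R ↔ eps r = 0 := by
  rw [max_eq, RingHom.mem_ker]

lemma rx_mem : rx ∈ maximalIdeal R := by
  rw [mem_max, eps_apply]; show PowerSeries.constantCoeff (0 : B) = 0; simp
lemma ry_mem : ry ∈ maximalIdeal R := by
  rw [mem_max, eps_apply]; show PowerSeries.constantCoeff (0 : B) = 0; simp
lemma rz_mem : rz ∈ maximalIdeal R := by
  rw [mem_max, eps_apply]; show PowerSeries.constantCoeff (PowerSeries.X : B) = 0; simp

/-- The maximal ideal is generated by `x`, `y`, `z`. -/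
lemma max_le (P : Ideal R) (hx : rx ∈ P) (hy : ry ∈ P) (hz : rz ∈ P) :
    maximalIdeal R ≤ P := by
  intro r hr
  obtain ⟨⟨f, g⟩, hfg⟩ := r
  have hr1 := hr
  rw [← N_one] at hr1
  obtain ⟨f1, f2, e1, -, -⟩ := splitA 0 f (by simpa using hr1.1)
  obtain ⟨g1, e2, -⟩ := splitB 0 g (by simpa using hr1.2)
  let r1 : R := ⟨(f1, PowerSeries.C (MvPowerSeries.constantCoeff f1)), by rw [mem_range]; simp⟩
  let r2 : R := ⟨(f2, PowerSeries.C (MvPowerSeries.constantCoeff f2)), by rw [mem_range]; simp⟩
  let r3 : R := ⟨(MvPowerSeries.C (PowerSeries.constantCoeff g1), g1), by rw [mem_range]; simp⟩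
  have e : (⟨(f, g), hfg⟩ : R) = r1 * rx + r2 * ry + r3 * rz := by
    apply Subtype.ext
    refine Prod.ext ?_ ?_
    · show f = f1 * MvPowerSeries.X 0 + f2 * MvPowerSeries.X 1 + _ * 0
      rw [e1]; ring
    · show g = _ * 0 + _ * 0 + g1 * PowerSeries.X
      rw [e2]; ring
  rw [e]
  exact add_mem (add_mem (P.mul_mem_left _ hx) (P.mul_mem_left _ hy)) (P.mul_mem_left _ hz)

lemma max_minimal : maximalIdeal R ∈ (Ideal.span {rx, ry + rz}).minimalPrimes := by
  refine ⟨⟨inferInstance, ?_⟩, ?_⟩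
  · rw [Ideal.span_le]
    intro r hr
    simp only [Set.mem_insert_iff, Set.mem_singleton_iff] at hr
    rcases hr with rfl | rfl
    · exact rx_mem
    · exact add_mem ry_mem rz_mem
  · rintro P ⟨hP, hle⟩ -
    have h1 : rx ∈ P := hle (Ideal.subset_span (by simp))
    have h2 : ry + rz ∈ P := hle (Ideal.subset_span (by simp))
    have h3 : ry * ry ∈ P := by
      have := P.mul_mem_left ry h2
      rw [mul_add, ry_rz, add_zero] at this
      exact this
    have h4 : ry ∈ P := by
      rcases hP.mem_or_mem h3 with h | h <;> exact h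
    have h5 : rz ∈ P := by
      have := P.sub_mem h2 h4
      rwa [add_sub_cancel_left] at this
    exact max_le P h1 h4 h5

lemma dim_le : ringKrullDim R ≤ 2 := by
  rw [← IsLocalRing.maximalIdeal_height_eq_ringKrullDim]
  have h := Ideal.height_le_spanRank_toENat_of_mem_minimalPrimes
    (Ideal.span {rx, ry + rz}) (maximalIdeal R) max_minimal
  have h2 : (Ideal.span {rx, ry + rz}).spanRank ≤ 2 := by
    refine le_trans (Submodule.spanRank_span_le_card _) ?_
    refine le_trans (Cardinal.mk_insert_le) ?_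
    simp
    norm_num
  have h3 : Cardinal.toENat ((Ideal.span {rx, ry + rz}).spanRank) ≤ 2 := by
    have := Cardinal.toENat.monotone' h2
    simpa using this
  have h4 := le_trans h h3
  have h5 : ((maximalIdeal R).height : WithBot ℕ∞) ≤ ((2 : ℕ∞) : WithBot ℕ∞) := WithBot.coe_le_coe.2 h4
  exact h5


instance : IsDomain A := NoZeroDivisors.to_isDomain A

/-- the prime of the plane -/
noncomputable def P0 : Ideal R := RingHom.ker ((RingHom.fst A B).comp phi.range.subtype)

lemma mem_P0 (r : R) : r ∈ P0 ↔ r.1.1 = 0 := Iff.rfl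

lemma P0_prime : P0.IsPrime := RingHom.ker_isPrime _

/-- the order along the line `x = 0` -/
noncomputable def vx (f : A) : ℕ∞ := f.weightedOrder (fun i : Fin 2 => if i = 0 then 1 else 0)

lemma vx_mul (f g : A) : vx (f * g) = vx f + vx g := MvPowerSeries.weightedOrder_mul _ _ _

/-- the prime of a line in the plane -/
noncomputable def P1 : Ideal R where
  carrier := {r | (1 : ℕ∞) ≤ vx r.1.1}
  add_mem' := by
    intro a b ha hb
    exact le_trans (le_min ha hb) (MvPowerSeries.min_weightedOrder_le_add _)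
  zero_mem' := by
    show (1 : ℕ∞) ≤ vx 0
    unfold vx
    rw [MvPowerSeries.weightedOrder_zero]; exact le_top
  smul_mem' := by
    intro c a ha
    show (1 : ℕ∞) ≤ vx (c.1.1 * a.1.1)
    rw [vx_mul]; exact le_trans ha le_add_self

lemma mem_P1 (r : R) : r ∈ P1 ↔ (1 : ℕ∞) ≤ vx r.1.1 := Iff.rfl

lemma vx_one : vx 1 = 0 := MvPowerSeries.weightedOrder_one _

lemma P1_prime : P1.IsPrime := by
  constructor
  · intro h
    have : (1 : R) ∈ P1 := by rw [h]; trivial
    rw [mem_P1] at this
    have h2 : vx (1 : R).1.1 = 0 := vx_one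
    rw [h2] at this
    exact absurd this (by decide)
  · intro a b hab
    rw [mem_P1] at hab
    by_contra hcon
    push Not at hcon
    obtain ⟨h1, h2⟩ := hcon
    rw [mem_P1, not_le, Order.lt_one_iff] at h1 h2
    have h3 : vx (a * b).1.1 = vx a.1.1 + vx b.1.1 := vx_mul _ _
    rw [h3, h1, h2] at hab
    exact absurd hab (by decide)

lemma P0_le_P1 : P0 ≤ P1 := by
  intro r hr
  rw [mem_P0] at hr
  rw [mem_P1, hr]
  unfold vx
  rw [MvPowerSeries.weightedOrder_zero]; exact le_top

lemma rx_P1 : rx ∈ P1 := by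
  rw [mem_P1]
  show (1 : ℕ∞) ≤ vx (MvPowerSeries.X 0)
  unfold vx
  rw [MvPowerSeries.X, MvPowerSeries.weightedOrder_monomial_of_ne_zero _ one_ne_zero]
  simp [Finsupp.weight_single]

lemma rx_P0 : rx ∉ P0 := by
  rw [mem_P0]
  show (MvPowerSeries.X 0 : A) ≠ 0
  intro h
  have h1 := oA_X 0
  rw [h, oA_zero] at h1
  exact absurd h1 (by decide)

lemma ry_P1 : ry ∉ P1 := by
  rw [mem_P1]
  show ¬ (1 : ℕ∞) ≤ vx (MvPowerSeries.X 1)
  unfold vx
  rw [MvPowerSeries.X, MvPowerSeries.weightedOrder_monomial_of_ne_zero _ one_ne_zero]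
  simp [Finsupp.weight_single]

lemma le_dim : 2 ≤ ringKrullDim R := by
  let s : LTSeries (PrimeSpectrum R) :=
    { length := 2
      toFun := ![⟨P0, P0_prime⟩, ⟨P1, P1_prime⟩, ⟨maximalIdeal R, inferInstance⟩]
      step := by
        intro i
        fin_cases i
        · show (⟨P0, P0_prime⟩ : PrimeSpectrum R) < ⟨P1, P1_prime⟩
          refine lt_of_le_of_ne P0_le_P1 ?_
          intro h
          have h1 : P0 = P1 := congrArg PrimeSpectrum.asIdeal h
          exact rx_P0 (h1 ▸ rx_P1)
        · show (⟨P1, P1_prime⟩ : PrimeSpectrum R) < ⟨maximalIdeal R, inferInstance⟩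
          refine lt_of_le_of_ne (IsLocalRing.le_maximalIdeal P1_prime.ne_top) ?_
          intro h
          have h1 : P1 = maximalIdeal R := congrArg PrimeSpectrum.asIdeal h
          exact ry_P1 (h1 ▸ ry_mem) }
  have := Order.LTSeries.length_le_krullDim s
  exact this

theorem dim_eq : ringKrullDim R = ((2 : ℕ) : WithBot ℕ∞) :=
  le_antisymm (by exact_mod_cast dim_le) (by exact_mod_cast le_dim)

end Run7.h109.NH
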