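import Pool.Agent.Run7.h109.NH.Ring

set_option autoImplicit false

namespace Run7.h109.NH

/-- A function with the properties of the order of a power series over a field. -/
structure IsOrd {S : Type} [CommRing S] (v : S → ℕ∞) : Prop where
  mul : ∀ a b, v (a * b) = v a + v b
  add : ∀ a b, min (v a) (v b) ≤ v (a + b)
  neg : ∀ a, v (-a) = v a
  zero : v 0 = ⊤
  one : v 1 = 0

lemma isOrdA : IsOrd oA := ⟨oA_mul, oA_add, oA_neg, oA_zero, by
  have h := oA_mul 1 1
  by_contra h0
  rw [mul_one] at h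
  have h1 : oA 1 ≠ ⊤ := by
    intro h2
    exact one_ne_zero (MvPowerSeries.order_eq_top_iff.1 h2)
  obtain ⟨k, hk⟩ := ENat.ne_top_iff_exists.1 h1
  rw [← hk] at h h0
  have h3 : k = k + k := by exact_mod_cast h
  apply h0
  have : k = 0 := by omega
  rw [this]; rfl⟩

lemma isOrdB : IsOrd oB := ⟨oB_mul, oB_add, oB_neg, oB_zero, PowerSeries.order_one⟩

variable {S : Type} [CommRing S] {v : S → ℕ∞}

lemma IsOrd.pow (hv : IsOrd v) (a : S) (k : ℕ) : v (a ^ k) = (k : ℕ∞) * v a := by
  induction k with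
  | zero => simp [hv.one]
  | succ k ih => rw [pow_succ, hv.mul, ih]; push_cast; ring

lemma IsOrd.le_sum (hv : IsOrd v) {ι : Type} (s : Finset ι) (f : ι → S) (c : ℕ∞)
    (h : ∀ i ∈ s, c ≤ v (f i)) : c ≤ v (∑ i ∈ s, f i) := by
  classical
  induction s using Finset.induction_on with
  | empty => simp [hv.zero]
  | insert a s ha ih =>
    rw [Finset.sum_insert ha]
    refine le_trans (le_min ?_ ?_) (hv.add _ _)
    · exact h a (Finset.mem_insert_self a s)
    · exact ih (fun i hi => h i (Finset.mem_insert_of_mem hi))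

/-- Elements integral over the `n`-th power have order at least `n`. -/
lemma IsOrd.integral (hv : IsOrd v) (n k : ℕ) (hk : 0 < k) (a : ℕ → S) (x : S)
    (ha : ∀ j, ((n * j : ℕ) : ℕ∞) ≤ v (a j))
    (h : x ^ k + ∑ j ∈ Finset.range k, a (k - j) * x ^ j = 0) : (n : ℕ∞) ≤ v x := by
  by_contra hlt
  rw [not_le] at hlt
  have h1 : v x ≠ ⊤ := ne_top_of_lt hlt
  obtain ⟨s, hs⟩ := ENat.ne_top_iff_exists.1 h1
  rw [← hs] at hlt
  have hsn : s < n := by exact_mod_cast hlt
  have h2 : ((s * k + 1 : ℕ) : ℕ∞) ≤ v (∑ j ∈ Finset.range k, a (k - j) * x ^ j) := by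
    apply hv.le_sum
    intro j hj
    rw [Finset.mem_range] at hj
    rw [hv.mul, hv.pow, ← hs]
    refine le_trans ?_ (add_le_add (ha (k - j)) le_rfl)
    have h3 : s * k + 1 ≤ n * (k - j) + j * s := by
      obtain ⟨i, rfl⟩ : ∃ i, k = j + 1 + i := ⟨k - (j + 1), by omega⟩
      have : j + 1 + i - j = i + 1 := by omega
      rw [this]
      nlinarith
    exact_mod_cast h3
  have h4 : x ^ k = -(∑ j ∈ Finset.range k, a (k - j) * x ^ j) := by
    linear_combination h
  have h5 : v (x ^ k) = ((k * s : ℕ) : ℕ∞) := by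
    rw [hv.pow, ← hs]; push_cast; rfl
  rw [h4, hv.neg] at h5
  rw [h5] at h2
  have h6 : s * k + 1 ≤ k * s := by exact_mod_cast h2
  have : k * s = s * k := mul_comm _ _
  omega

lemma N_pow_mem (n j : ℕ) : (N n) ^ j ≤ N (n * j) := by
  rw [← pow_eq_N, ← pow_eq_N, ← pow_mul]

/-- The powers of the maximal ideal are integrally closed. -/
lemma integrally_closed (n : ℕ) (x : R) :
    x ∈ (IsLocalRing.maximalIdeal R) ^ n ↔
      ∃ k : ℕ, 0 < k ∧ ∃ a : ℕ → R, (∀ j, a j ∈ ((IsLocalRing.maximalIdeal R) ^ n) ^ j) ∧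
        x ^ k + ∑ j ∈ Finset.range k, a (k - j) * x ^ j = 0 := by
  constructor
  · intro hx
    refine ⟨1, one_pos, fun j => if j = 1 then -x else 0, ?_, ?_⟩
    · intro j
      dsimp only
      split_ifs with hj
      · rw [hj, pow_one]; exact neg_mem hx
      · exact zero_mem _
    · simp
  · rintro ⟨k, hk, a, ha, h⟩
    rw [pow_eq_N]
    have ha' : ∀ j, a j ∈ N (n * j) := by
      intro j
      have := ha j
      rw [← pow_mul, pow_eq_N] at this
      exact this
    constructor
    · refine isOrdA.integral n k hk (fun j => (a j).1.1) x.1.1 (fun j => (ha' j).1) ?_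
      have h1 := congrArg (fun r : R => ((RingHom.fst A B).comp phi.range.subtype) r) h
      simp only [map_add, map_pow, map_sum, map_mul, map_zero] at h1
      exact h1
    · refine isOrdB.integral n k hk (fun j => (a j).1.2) x.1.2 (fun j => (ha' j).2) ?_
      have h1 := congrArg (fun r : R => ((RingHom.snd A B).comp phi.range.subtype) r) h
      simp only [map_add, map_pow, map_sum, map_mul, map_zero] at h1
      exact h1

lemma sq_mem (n : ℕ) (x : R) (h : x ^ 2 ∈ (IsLocalRing.maximalIdeal R) ^ (2 * n)) :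
    x ∈ (IsLocalRing.maximalIdeal R) ^ n := by
  rw [integrally_closed]
  refine ⟨2, two_pos, fun j => if j = 2 then - x ^ 2 else 0, ?_, ?_⟩
  · intro j
    dsimp only
    split_ifs with hj
    · rw [hj, ← pow_mul, mul_comm n 2]; exact neg_mem h
    · exact zero_mem _
  · rw [Finset.sum_range_succ, Finset.sum_range_one]
    simp

/-- The completion of `R` is reduced. -/
lemma completion_reduced : IsReduced (AdicCompletion (IsLocalRing.maximalIdeal R) R) := by
  rw [isReduced_iff_pow_one_lt 2 one_lt_two]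
  intro x hx
  apply AdicCompletion.ext_evalₐ
  intro n
  rw [map_zero]
  obtain ⟨a, rfl⟩ := AdicCompletion.mk_surjective (IsLocalRing.maximalIdeal R) R x
  rw [AdicCompletion.evalₐ_mk]
  have h1 : AdicCompletion.evalₐ (IsLocalRing.maximalIdeal R) (2 * n)
      ((AdicCompletion.mk (IsLocalRing.maximalIdeal R) R a) ^ 2) = 0 := by rw [hx, map_zero]
  rw [map_pow, AdicCompletion.evalₐ_mk, ← map_pow, Ideal.Quotient.eq_zero_iff_mem] at h1
  have h2 := sq_mem n _ h1
  have h3 := AdicCompletion.Ideal.mk_eq_mk (I := IsLocalRing.maximalIdeal R)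
    (show n ≤ 2 * n by omega) a
  rw [Ideal.Quotient.eq_zero_iff_mem]
  have h4 : (Ideal.Quotient.mk (IsLocalRing.maximalIdeal R ^ n)) (a.val (2 * n)) = 0 :=
    (Ideal.Quotient.eq_zero_iff_mem).2 h2
  rw [h3] at h4
  exact (Ideal.Quotient.eq_zero_iff_mem).1 h4

end Run7.h109.NH
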