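import Pool.Agent.Run7.h109.NH.Ring

set_option autoImplicit false

namespace Run7.h109.NH

open IsLocalRing

noncomputable instance algRQ : Algebra R ℚ := eps.toAlgebra

lemma smul_def (r : R) (q : ℚ) : r • q = eps r * q := rfl

lemma length_Q : Module.length R ℚ = 1 := by
  rw [Module.length_eq_of_surjective (R := ℚ) (S := R) (M := ℚ) eps_surj]
  rw [Module.length_eq_finrank]
  simp

/-- A homogeneous form of degree `n`. -/
noncomputable def fA (n : ℕ) (c : Fin (n + 1) → ℚ) : A :=
  fun d => if h : d 0 + d 1 = n then c ⟨d 0, by omega⟩ else 0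

lemma coeff_fA (n : ℕ) (c : Fin (n + 1) → ℚ) (d : Fin 2 →₀ ℕ) :
    MvPowerSeries.coeff d (fA n c) = if h : d 0 + d 1 = n then c ⟨d 0, by omega⟩ else 0 := rfl

lemma degree_eq (d : Fin 2 →₀ ℕ) : d.degree = d 0 + d 1 := by
  rw [Finsupp.degree_eq_sum]; simp

lemma oA_fA (n : ℕ) (c : Fin (n + 1) → ℚ) : (n : ℕ∞) ≤ oA (fA n c) := by
  apply MvPowerSeries.nat_le_order
  intro d hd
  rw [degree_eq] at hd
  rw [coeff_fA, dif_neg (by omega)]

lemma oB_mon (n : ℕ) (q : ℚ) : (n : ℕ∞) ≤ oB (PowerSeries.monomial n q) := by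
  apply PowerSeries.nat_le_order
  intro i hi
  rw [PowerSeries.coeff_monomial, if_neg (by omega)]

/-- The map from the forms of degree `n`. -/
noncomputable def fR (n : ℕ) (hn : 1 ≤ n) (c : (Fin (n + 1) → ℚ) × ℚ) : R :=
  ⟨(fA n c.1, PowerSeries.monomial n c.2), by
    rw [mem_range]
    have h1 : (1 : ℕ∞) ≤ oA (fA n c.1) := le_trans (by exact_mod_cast hn) (oA_fA n c.1)
    have h2 : (1 : ℕ∞) ≤ oB (PowerSeries.monomial n c.2) :=
      le_trans (by exact_mod_cast hn) (oB_mon n c.2)
    rw [(one_le_oA _).1 h1, (one_le_oB _).1 h2]⟩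

lemma fR_mem (n : ℕ) (hn : 1 ≤ n) (c : (Fin (n + 1) → ℚ) × ℚ) : fR n hn c ∈ N n :=
  ⟨oA_fA n c.1, oB_mon n c.2⟩

lemma fA_add (n : ℕ) (c d : Fin (n + 1) → ℚ) : fA n (c + d) = fA n c + fA n d := by
  ext k
  rw [map_add, coeff_fA, coeff_fA, coeff_fA]
  split_ifs <;> simp

lemma fA_smul (n : ℕ) (q : ℚ) (c : Fin (n + 1) → ℚ) :
    fA n (q • c) = MvPowerSeries.C q * fA n c := by
  ext k
  rw [MvPowerSeries.coeff_C_mul, coeff_fA, coeff_fA]
  split_ifs <;> simp

lemma fR_add (n : ℕ) (hn : 1 ≤ n) (c d : (Fin (n + 1) → ℚ) × ℚ) :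
    fR n hn (c + d) = fR n hn c + fR n hn d := by
  apply Subtype.ext
  refine Prod.ext ?_ ?_
  · exact fA_add n c.1 d.1
  · exact map_add (PowerSeries.monomial n) c.2 d.2

/-- the constant `q` in `R` -/
noncomputable def cR (q : ℚ) : R := ⟨(MvPowerSeries.C q, PowerSeries.C q), by rw [mem_range]; simp⟩

lemma eps_cR (q : ℚ) : eps (cR q) = q := by
  rw [eps_apply]; show PowerSeries.constantCoeff (PowerSeries.C q) = q; simp

lemma fR_smul (n : ℕ) (hn : 1 ≤ n) (q : ℚ) (c : (Fin (n + 1) → ℚ) × ℚ) :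
    fR n hn (q • c) = cR q * fR n hn c := by
  apply Subtype.ext
  refine Prod.ext ?_ ?_
  · exact fA_smul n q c.1
  · show PowerSeries.monomial n (q • c.2) = PowerSeries.C q * PowerSeries.monomial n c.2
    ext k
    rw [PowerSeries.coeff_C_mul, PowerSeries.coeff_monomial, PowerSeries.coeff_monomial]
    split_ifs <;> simp

/-- forms of degree `n` in `R / m ^ (n+1)` -/
noncomputable def fL (n : ℕ) (hn : 1 ≤ n) : ((Fin (n + 1) → ℚ) × ℚ) →ₗ[R] (R ⧸ N (n + 1)) where
  toFun c := Ideal.Quotient.mk (N (n + 1)) (fR n hn c)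
  map_add' c d := by rw [fR_add, map_add]
  map_smul' r c := by
    have h : r • c = (eps r) • c := rfl
    rw [h, fR_smul]
    show Ideal.Quotient.mk (N (n + 1)) (cR (eps r) * fR n hn c) =
      Ideal.Quotient.mk (N (n + 1)) (r * fR n hn c)
    rw [Ideal.Quotient.eq, ← sub_mul]
    have h1 : cR (eps r) - r ∈ N 1 := by
      rw [N_one, max_eq, RingHom.mem_ker, map_sub, eps_cR, sub_self]
    rw [add_comm n 1]
    exact N_mul 1 n (Ideal.mul_mem_mul h1 (fR_mem n hn c))

lemma fL_inj (n : ℕ) (hn : 1 ≤ n) : Function.Injective (fL n hn) := by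
  rw [← LinearMap.ker_eq_bot, LinearMap.ker_eq_bot']
  intro c hc
  have h1 : fR n hn c ∈ N (n + 1) := Ideal.Quotient.eq_zero_iff_mem.1 hc
  obtain ⟨h2, h3⟩ := h1
  refine Prod.ext ?_ ?_
  · funext i
    have h4 : MvPowerSeries.coeff (Finsupp.single 0 i.1 + Finsupp.single 1 (n - i.1) : Fin 2 →₀ ℕ)
        (fA n c.1) = 0 := by
      apply MvPowerSeries.coeff_of_lt_order
      refine lt_of_lt_of_le ?_ h2
      rw [degree_eq]
      have : (Finsupp.single 0 i.1 + Finsupp.single 1 (n - i.1) : Fin 2 →₀ ℕ) 0 +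
        (Finsupp.single 0 i.1 + Finsupp.single 1 (n - i.1) : Fin 2 →₀ ℕ) 1 = n := by
        simp; omega
      rw [this]
      exact_mod_cast Nat.lt_succ_self n
    rw [coeff_fA] at h4
    have h5 : (Finsupp.single 0 i.1 + Finsupp.single 1 (n - i.1) : Fin 2 →₀ ℕ) 0 +
        (Finsupp.single 0 i.1 + Finsupp.single 1 (n - i.1) : Fin 2 →₀ ℕ) 1 = n := by
        simp; omega
    rw [dif_pos h5] at h4
    have h6 : (⟨(Finsupp.single 0 i.1 + Finsupp.single 1 (n - i.1) : Fin 2 →₀ ℕ) 0, by omega⟩ :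
      Fin (n + 1)) = i := by
      apply Fin.ext; simp
    rw [h6] at h4
    exact h4
  · have h4 : PowerSeries.coeff n (PowerSeries.monomial n c.2) = 0 := by
      apply PowerSeries.coeff_of_lt_order
      refine lt_of_lt_of_le ?_ h3
      exact_mod_cast Nat.lt_succ_self n
    rw [PowerSeries.coeff_monomial, if_pos rfl] at h4
    exact h4

/-- the reduction -/
noncomputable def gL (n : ℕ) : (R ⧸ N (n + 1)) →ₗ[R] (R ⧸ N n) :=
  Submodule.mapQ (N (n + 1)) (N n) LinearMap.id (by
    intro r hr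
    exact ⟨le_trans (by exact_mod_cast Nat.le_succ n) hr.1,
      le_trans (by exact_mod_cast Nat.le_succ n) hr.2⟩)

lemma gL_surj (n : ℕ) : Function.Surjective (gL n) := by
  intro x
  obtain ⟨r, rfl⟩ := Submodule.Quotient.mk_surjective _ x
  exact ⟨Submodule.Quotient.mk r, rfl⟩

lemma exact (n : ℕ) (hn : 1 ≤ n) : Function.Exact (fL n hn) (gL n) := by
  intro x
  constructor
  · intro hx
    obtain ⟨r, rfl⟩ := Submodule.Quotient.mk_surjective _ x
    have h1 : r ∈ N n := (Submodule.Quotient.mk_eq_zero (N n)).1 hx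
    refine ⟨(fun i => MvPowerSeries.coeff (Finsupp.single 0 i.1 + Finsupp.single 1 (n - i.1)) r.1.1,
      PowerSeries.coeff n r.1.2), ?_⟩
    show Ideal.Quotient.mk (N (n + 1)) _ = Ideal.Quotient.mk (N (n + 1)) r
    rw [Ideal.Quotient.eq]
    constructor
    · apply MvPowerSeries.nat_le_order
      intro d hd
      show MvPowerSeries.coeff d (fA n _ - r.1.1) = 0
      rw [map_sub, coeff_fA]
      rw [degree_eq] at hd
      split_ifs with h
      · rw [sub_eq_zero]
        have h7 : (Finsupp.single 0 (d 0) + Finsupp.single 1 (n - d 0) : Fin 2 →₀ ℕ) = d := by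
          ext i
          fin_cases i
          · simp
          · simp; omega
        show MvPowerSeries.coeff (Finsupp.single 0 (d 0) + Finsupp.single 1 (n - d 0)) r.1.1 =
          MvPowerSeries.coeff d r.1.1
        rw [h7]
      · rw [zero_sub, neg_eq_zero]
        apply MvPowerSeries.coeff_of_lt_order
        refine lt_of_lt_of_le ?_ h1.1
        rw [degree_eq]
        exact_mod_cast (by omega : d 0 + d 1 < n)
    · apply PowerSeries.nat_le_order
      intro i hi
      show PowerSeries.coeff i (PowerSeries.monomial n _ - r.1.2) = 0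
      rw [map_sub, PowerSeries.coeff_monomial]
      split_ifs with h
      · rw [h, sub_self]
      · rw [zero_sub, neg_eq_zero]
        apply PowerSeries.coeff_of_lt_order
        refine lt_of_lt_of_le ?_ h1.2
        exact_mod_cast (by omega : i < n)
  · rintro ⟨c, rfl⟩
    show (Submodule.Quotient.mk (fR n hn c) : R ⧸ N n) = 0
    rw [Submodule.Quotient.mk_eq_zero]
    exact fR_mem n hn c

lemma length_one : Module.length R (R ⧸ N 1) = 1 := by
  rw [N_one, Module.length_eq_one_iff]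
  have : IsSimpleModule R (R ⧸ (maximalIdeal R : Submodule R R)) := by
    rw [isSimpleModule_iff_isCoatom]
    exact Ideal.isMaximal_def.1 inferInstance
  exact this

lemma length_succ (n : ℕ) (hn : 1 ≤ n) :
    Module.length R (R ⧸ N (n + 1)) = Module.length R (R ⧸ N n) + (n + 2 : ℕ) := by
  rw [Module.length_eq_add_of_exact (fL n hn) (gL n) (fL_inj n hn) (gL_surj n) (exact n hn)]
  rw [Module.length_prod, Module.length_pi, length_Q]
  rw [add_comm]
  congr 1
  simp
  norm_cast

/-- The Hilbert function. -/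
lemma length_eq (n : ℕ) :
    Module.length R (R ⧸ N (n + 1)) = (((n + 2).choose 2 + n : ℕ) : ℕ∞) := by
  induction n with
  | zero => rw [length_one]; rfl
  | succ n ih =>
    rw [length_succ (n + 1) (by omega), ih]
    have : (n + 1 + 2).choose 2 = (n + 2).choose 2 + (n + 2) := by
      rw [show n + 1 + 2 = (n + 2) + 1 from rfl, Nat.choose_succ_succ' (n + 2) 1, Nat.choose_one_right]
      ring
    rw [this]
    push_cast
    ring

end Run7.h109.NH
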