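import Mathlib

set_option autoImplicit false

namespace Run7.h109.NH

open MvPowerSeries

/-- The plane: `ℚ⟦x, y⟧`. -/
abbrev A := MvPowerSeries (Fin 2) ℚ
/-- The line: `ℚ⟦z⟧`. -/
abbrev B := PowerSeries ℚ

/-- `ℚ⟦x, y⟧⟦z⟧ → ℚ⟦x, y⟧ × ℚ⟦z⟧`. -/
noncomputable def phi : PowerSeries A →+* A × B :=
  RingHom.prod (PowerSeries.constantCoeff) (PowerSeries.map (MvPowerSeries.constantCoeff))

/-- The plane and the line glued at a point. -/
noncomputable abbrev R : Type := phi.range

lemma mem_range (f : A) (g : B) : (f, g) ∈ phi.range ↔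
    MvPowerSeries.constantCoeff f = PowerSeries.constantCoeff g := by
  constructor
  · rintro ⟨F, hF⟩
    have h1 : PowerSeries.constantCoeff F = f := congrArg Prod.fst hF
    have h2 : PowerSeries.map (MvPowerSeries.constantCoeff) F = g := congrArg Prod.snd hF
    rw [← h1, ← h2]
    rw [← PowerSeries.coeff_zero_eq_constantCoeff_apply, ← PowerSeries.coeff_zero_eq_constantCoeff_apply, PowerSeries.coeff_map]
  · intro h
    refine ⟨PowerSeries.mk (fun n => if n = 0 then f else MvPowerSeries.C (PowerSeries.coeff n g)), ?_⟩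
    refine Prod.ext ?_ ?_
    · show PowerSeries.constantCoeff _ = f
      rw [← PowerSeries.coeff_zero_eq_constantCoeff_apply, PowerSeries.coeff_mk]
      simp
    · show PowerSeries.map (MvPowerSeries.constantCoeff) _ = g
      ext n
      rw [PowerSeries.coeff_map, PowerSeries.coeff_mk]
      rcases Nat.eq_zero_or_pos n with hn | hn
      · subst hn
        simp [h]
      · rw [if_neg (by omega)]
        simp

lemma mem_iff (r : A × B) : r ∈ phi.range ↔
    MvPowerSeries.constantCoeff r.1 = PowerSeries.constantCoeff r.2 := mem_range r.1 r.2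

noncomputable instance : IsNoetherianRing R := by
  have : IsNoetherianRing (PowerSeries A) := inferInstance
  exact isNoetherianRing_range phi

instance : Nontrivial R := inferInstance

noncomputable instance : IsLocalRing R := by
  have : IsLocalRing (PowerSeries A) := inferInstanceAs (IsLocalRing (MvPowerSeries Unit A))
  exact IsLocalRing.of_surjective' phi.rangeRestrict phi.rangeRestrict_surjective

/-- the constant coefficient -/
noncomputable def eps : R →+* ℚ :=
  (PowerSeries.constantCoeff (R := ℚ)).comp ((RingHom.snd A B).comp phi.range.subtype)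

lemma eps_apply (r : R) : eps r = PowerSeries.constantCoeff r.1.2 := rfl

lemma eps_apply' (r : R) : eps r = MvPowerSeries.constantCoeff r.1.1 := by
  rw [eps_apply, (mem_iff r.1).1 r.2]

lemma eps_surj : Function.Surjective eps := by
  intro q
  refine ⟨⟨(MvPowerSeries.C q, PowerSeries.C q), ?_⟩, ?_⟩
  · rw [mem_range]; simp
  · rw [eps_apply]; simp

lemma max_eq : IsLocalRing.maximalIdeal R = RingHom.ker eps := by
  have : (RingHom.ker eps).IsMaximal := RingHom.ker_isMaximal_of_surjective eps eps_surj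
  exact (IsLocalRing.eq_maximalIdeal this).symm

/-- order in the plane -/
noncomputable def oA (f : A) : ℕ∞ := MvPowerSeries.order f
/-- order in the line -/
noncomputable def oB (f : B) : ℕ∞ := PowerSeries.order f

lemma oA_mul (f g : A) : oA (f * g) = oA f + oA g := weightedOrder_mul _ _ _
lemma oB_mul (f g : B) : oB (f * g) = oB f + oB g := PowerSeries.order_mul f g
lemma oA_add (f g : A) : min (oA f) (oA g) ≤ oA (f + g) := min_order_le_add
lemma oB_add (f g : B) : min (oB f) (oB g) ≤ oB (f + g) := PowerSeries.min_order_le_order_add f g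
lemma oA_neg (f : A) : oA (-f) = oA f := MvPowerSeries.order_neg f
lemma oB_neg (f : B) : oB (-f) = oB f := PowerSeries.order_neg f
lemma oA_zero : oA 0 = ⊤ := MvPowerSeries.order_zero
lemma oB_zero : oB 0 = ⊤ := PowerSeries.order_zero

/-- the ideal of elements of order at least `n` -/
noncomputable def N (n : ℕ) : Ideal R where
  carrier := {r | (n : ℕ∞) ≤ oA r.1.1 ∧ (n : ℕ∞) ≤ oB r.1.2}
  add_mem' := by
    rintro a b ⟨ha, ha'⟩ ⟨hb, hb'⟩
    exact ⟨le_trans (le_min ha hb) (oA_add _ _), le_trans (le_min ha' hb') (oB_add _ _)⟩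
  zero_mem' := by
    constructor
    · show (n : ℕ∞) ≤ oA 0
      rw [oA_zero]; exact le_top
    · show (n : ℕ∞) ≤ oB 0
      rw [oB_zero]; exact le_top
  smul_mem' := by
    rintro c a ⟨ha, ha'⟩
    constructor
    · show (n : ℕ∞) ≤ oA (c.1.1 * a.1.1)
      rw [oA_mul]; exact le_trans ha le_add_self
    · show (n : ℕ∞) ≤ oB (c.1.2 * a.1.2)
      rw [oB_mul]; exact le_trans ha' le_add_self

lemma mem_N (n : ℕ) (r : R) : r ∈ N n ↔ (n : ℕ∞) ≤ oA r.1.1 ∧ (n : ℕ∞) ≤ oB r.1.2 := Iff.rfl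

lemma N_zero : N 0 = ⊤ := by
  rw [eq_top_iff]; intro r _; rw [mem_N]; simp

lemma one_le_oA (f : A) : (1 : ℕ∞) ≤ oA f ↔ MvPowerSeries.constantCoeff f = 0 :=
  one_le_order_iff_constCoeff_eq_zero
lemma one_le_oB (f : B) : (1 : ℕ∞) ≤ oB f ↔ PowerSeries.constantCoeff f = 0 :=
  PowerSeries.one_le_order_iff_constCoeff_eq_zero

lemma N_one : N 1 = IsLocalRing.maximalIdeal R := by
  rw [max_eq]
  ext r
  rw [mem_N, RingHom.mem_ker, Nat.cast_one, one_le_oA, one_le_oB, ← eps_apply, ← eps_apply']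
  tauto

lemma N_mul (a b : ℕ) : N a * N b ≤ N (a + b) := by
  rw [Ideal.mul_le]
  rintro r ⟨hr, hr'⟩ s ⟨hs, hs'⟩
  refine ⟨?_, ?_⟩
  · show ((a + b : ℕ) : ℕ∞) ≤ oA (r.1.1 * s.1.1)
    rw [oA_mul]; push_cast; exact add_le_add hr hs
  · show ((a + b : ℕ) : ℕ∞) ≤ oB (r.1.2 * s.1.2)
    rw [oB_mul]; push_cast; exact add_le_add hr' hs'

lemma pow_le_N (n : ℕ) : (IsLocalRing.maximalIdeal R) ^ n ≤ N n := by
  induction n with
  | zero => rw [N_zero]; exact le_top
  | succ n ih =>
    rw [pow_succ]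
    refine le_trans (Ideal.mul_mono ih (le_of_eq N_one.symm)) (N_mul n 1)

lemma oA_X (i : Fin 2) : oA (MvPowerSeries.X i) = 1 := by
  unfold oA
  rw [MvPowerSeries.X, order_monomial_of_ne_zero one_ne_zero]
  simp

lemma splitA (n : ℕ) (f : A) (hf : ((n + 1 : ℕ) : ℕ∞) ≤ oA f) :
    ∃ f1 f2 : A, f = MvPowerSeries.X 0 * f1 + MvPowerSeries.X 1 * f2 ∧
      (n : ℕ∞) ≤ oA f1 ∧ (n : ℕ∞) ≤ oA f2 := by
  let h : A := fun d => if d 0 = 0 then MvPowerSeries.coeff d f else 0
  have hc : ∀ d, MvPowerSeries.coeff d h = if d 0 = 0 then MvPowerSeries.coeff d f else 0 :=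
    fun d => rfl
  have hfz : ∀ d : Fin 2 →₀ ℕ, d.degree < n + 1 → MvPowerSeries.coeff d f = 0 := by
    intro d hd
    apply coeff_of_lt_order
    refine lt_of_lt_of_le ?_ hf
    exact_mod_cast hd
  have hoh : ((n + 1 : ℕ) : ℕ∞) ≤ oA h := by
    apply nat_le_order
    intro d hd
    rw [hc, hfz d hd]; simp
  have hofh : ((n + 1 : ℕ) : ℕ∞) ≤ oA (f - h) := by
    apply nat_le_order
    intro d hd
    rw [map_sub, hc, hfz d hd]; simp
  have d1 : (MvPowerSeries.X 0 : A) ∣ f - h := by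
    rw [MvPowerSeries.X_dvd_iff]
    intro m hm
    rw [map_sub, hc, if_pos hm, sub_self]
  have d2 : (MvPowerSeries.X 1 : A) ∣ h := by
    rw [MvPowerSeries.X_dvd_iff]
    intro m hm
    rw [hc]
    split_ifs with h0
    · apply hfz
      have : m = 0 := by
        ext i
        fin_cases i
        · exact h0
        · exact hm
      rw [this]; simp
    · rfl
  obtain ⟨f1, hf1⟩ := d1
  obtain ⟨f2, hf2⟩ := d2
  refine ⟨f1, f2, ?_, ?_, ?_⟩
  · rw [← hf1, ← hf2]; ring
  · rw [hf1, oA_mul, oA_X] at hofh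
    push_cast at hofh
    rw [add_comm] at hofh
    exact (ENat.add_le_add_iff_left ENat.one_ne_top).1 hofh
  · rw [hf2, oA_mul, oA_X] at hoh
    push_cast at hoh
    rw [add_comm] at hoh
    exact (ENat.add_le_add_iff_left ENat.one_ne_top).1 hoh

lemma splitB (n : ℕ) (g : B) (hg : ((n + 1 : ℕ) : ℕ∞) ≤ oB g) :
    ∃ g1 : B, g = PowerSeries.X * g1 ∧ (n : ℕ∞) ≤ oB g1 := by
  have d : (PowerSeries.X : B) ∣ g := by
    rw [PowerSeries.X_dvd_iff, ← one_le_oB]
    refine le_trans ?_ hg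
    push_cast; exact le_add_self
  obtain ⟨g1, hg1⟩ := d
  refine ⟨g1, hg1, ?_⟩
  rw [hg1, oB_mul] at hg
  have : oB (PowerSeries.X : B) = 1 := PowerSeries.order_X
  rw [this] at hg
  push_cast at hg
  rw [add_comm] at hg
  exact (ENat.add_le_add_iff_left ENat.one_ne_top).1 hg

lemma N_succ_le (n : ℕ) (hn : 1 ≤ n) : N (n + 1) ≤ N 1 * N n := by
  rintro ⟨⟨f, g⟩, hfg⟩ ⟨h1, h2⟩
  obtain ⟨f1, f2, e1, a1, a2⟩ := splitA n f h1
  obtain ⟨g1, e2, b1⟩ := splitB n g h2
  have hn' : (1 : ℕ∞) ≤ n := by exact_mod_cast hn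
  have c1 : MvPowerSeries.constantCoeff f1 = 0 := (one_le_oA f1).1 (le_trans hn' a1)
  have c2 : MvPowerSeries.constantCoeff f2 = 0 := (one_le_oA f2).1 (le_trans hn' a2)
  have c3 : PowerSeries.constantCoeff g1 = 0 := (one_le_oB g1).1 (le_trans hn' b1)
  let r1 : R := ⟨(f1, 0), by rw [mem_range, c1]; simp⟩
  let r2 : R := ⟨(f2, 0), by rw [mem_range, c2]; simp⟩
  let r3 : R := ⟨(0, g1), by rw [mem_range, c3]; simp⟩
  let x : R := ⟨(MvPowerSeries.X 0, 0), by rw [mem_range]; simp⟩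
  let y : R := ⟨(MvPowerSeries.X 1, 0), by rw [mem_range]; simp⟩
  let z : R := ⟨(0, PowerSeries.X), by rw [mem_range]; simp⟩
  have m1 : r1 ∈ N n := ⟨a1, by show (n : ℕ∞) ≤ oB 0; rw [oB_zero]; exact le_top⟩
  have m2 : r2 ∈ N n := ⟨a2, by show (n : ℕ∞) ≤ oB 0; rw [oB_zero]; exact le_top⟩
  have m3 : r3 ∈ N n := ⟨by show (n : ℕ∞) ≤ oA 0; rw [oA_zero]; exact le_top, b1⟩
  have mx : x ∈ N 1 := by
    rw [N_one, max_eq, RingHom.mem_ker, eps_apply]
    show PowerSeries.constantCoeff (0 : B) = 0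
    simp
  have my : y ∈ N 1 := by
    rw [N_one, max_eq, RingHom.mem_ker, eps_apply]
    show PowerSeries.constantCoeff (0 : B) = 0
    simp
  have mz : z ∈ N 1 := by
    rw [N_one, max_eq, RingHom.mem_ker, eps_apply]
    show PowerSeries.constantCoeff (PowerSeries.X : B) = 0
    simp
  have e : (⟨(f, g), hfg⟩ : R) = x * r1 + y * r2 + z * r3 := by
    apply Subtype.ext
    refine Prod.ext ?_ ?_
    · show f = MvPowerSeries.X 0 * f1 + MvPowerSeries.X 1 * f2 + 0 * 0
      rw [e1]; ring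
    · show g = 0 * 0 + 0 * 0 + PowerSeries.X * g1
      rw [e2]; ring
  rw [e]
  exact add_mem (add_mem (Ideal.mul_mem_mul mx m1) (Ideal.mul_mem_mul my m2))
    (Ideal.mul_mem_mul mz m3)

lemma N_le_pow (n : ℕ) : N n ≤ (IsLocalRing.maximalIdeal R) ^ n := by
  induction n with
  | zero => simp
  | succ n ih =>
    rcases Nat.eq_zero_or_pos n with h | h
    · subst h
      rw [zero_add, N_one, pow_one]
    · refine le_trans (N_succ_le n h) ?_
      rw [pow_succ']
      exact Ideal.mul_mono (le_of_eq N_one) ih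

lemma pow_eq_N (n : ℕ) : (IsLocalRing.maximalIdeal R) ^ n = N n :=
  le_antisymm (pow_le_N n) (N_le_pow n)

end Run7.h109.NH
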